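import Pool.Agent.TH464.PO.Two

set_option autoImplicit false

/-!
# `m` and `m ^ 2 + m + 1`: the density in all windows around almost all integers

Let `m` be good if `m` has at most `r` prime factors and `m ^ 2 + m + 1` at most `2 r`, all larger
than `X ^ (1 / r)`. Let `V` be the product of `1 - ρ(p) / p` over the primes `p ≤ X ^ (1 / r)`.
Given `θ > 0` and `ε > 0` there are `K` and `r0` such that for every `r ≥ r0` and all large `X`,
in EVERY interval `(X, X + Y]` with `X ^ θ ≤ Y ≤ X`, for all but at most `ε Y` of its integers `n`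
ALL windows `(u, v]` around `n` inside `(X, X + Y]` of length at least `K / V` contain `(1 ± ε) (v
- u) V` good integers.
-/

namespace Pool.Agent.Results.MP_82233c_nt.ExactWindows

open Finset Filter

/-- `N` has at most `B` prime factors (with multiplicity), all of them larger than `z`. -/
def AlmostPrime (B : ℕ) (z : ℝ) (N : ℕ) : Prop :=
  N.primeFactorsList.length ≤ B ∧ ∀ p : ℕ, p.Prime → p ∣ N → z < (p : ℝ)

/-- `m` is good: `m` has at most `r` prime factors and `m ^ 2 + m + 1` at most `2 r`, all larger than `X ^ (1 / r)`. -/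
def Good (r X m : ℕ) : Prop :=
  AlmostPrime r ((X : ℝ) ^ (1 / (r : ℝ))) m ∧
    AlmostPrime (2 * r) ((X : ℝ) ^ (1 / (r : ℝ))) (m ^ 2 + m + 1)

open Classical in
/-- The sieve density: the product of `1 - ρ(p) / p` over the primes `p ≤ X ^ (1 / r)`, where `ρ(p)` is
the number of the `a` mod `p` with `p ∣ a` or `p ∣ a ^ 2 + a + 1`. -/
noncomputable def V (r X : ℕ) : ℝ :=
  ∏ p ∈ (Finset.range (⌊(X : ℝ) ^ (1 / (r : ℝ))⌋₊ + 1)).filter Nat.Prime,
    (1 - (((Finset.range p).filter (fun a : ℕ => p ∣ a ∨ p ∣ a ^ 2 + a + 1)).card : ℝ) / p)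

open Classical in
/-- The number of the good `k` in `(u, v]`. -/
noncomputable def N (r X u v : ℕ) : ℕ :=
  ((Finset.Ioc u v).filter (fun k => Good r X k)).card

/-- All windows around `n` inside `(X, X + Y]` of length at least `K / V` have the density `V` up to
`ε`. -/
def AllWindows (r : ℕ) (K ε : ℝ) (X Y n : ℕ) : Prop :=
  ∀ u v : ℕ, X ≤ u → u < n → n ≤ v → v ≤ X + Y → K ≤ ((v : ℝ) - u) * V r X →
    |(N r X u v : ℝ) - (v - u) * V r X| ≤ ε * ((v - u) * V r X)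

open Pool.Agent.TH464.PO Pool.Agent.TH464.PW Pool.Agent.W123.RU Pool.Agent.W123.RU.Poly
open Pool.Agent.H373R2.T7 Pool.Agent.W123.RP

lemma good_iff (r : ℕ) (hr : 1 ≤ r) : ∀ᶠ X : ℕ in atTop, ∀ m : ℕ, m ≤ 3 * X →
    (Sf (Q f111) ⌊(X : ℝ) ^ (1 / (r : ℝ))⌋₊ m ↔ Good r X m) := by
  filter_upwards [sf_two (ln 1 0) (quad 1 1 1) 1 2 (ln_deg 1 0 one_ne_zero).le (quad_deg 1 1 1 one_ne_zero).le r hr] with X hX m hm
  have e1 : ((ln 1 0).eval (m : ℤ)).natAbs = m := by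
    have e : (1 : ℤ) * (m : ℤ) + 0 = ((m : ℕ) : ℤ) := by ring
    rw [ln_eval, e, Int.natAbs_natCast]
  have e2 : ((quad 1 1 1).eval (m : ℤ)).natAbs = (m ^ 2 + m + 1) := by
    have e : (1 : ℤ) * (m : ℤ) ^ 2 + 1 * m + 1 = ((m ^ 2 + m + 1 : ℕ) : ℤ) := by
      push_cast
      ring
    rw [quad_eval, e, Int.natAbs_natCast]
  have h := hX m hm
  rw [e1, e2] at h
  rw [one_mul] at h
  exact h

lemma V_eq (r X : ℕ) : Vq (Q f111) ⌊(X : ℝ) ^ (1 / (r : ℝ))⌋₊ = V r X :=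
  V_gen f111 (fun p a => p ∣ a ∨ p ∣ a ^ 2 + a + 1) (fun p m => by
    have e1 : (p : ℤ) ∣ (ln 1 0).eval (m : ℤ) ↔ p ∣ m := by
      have e : (1 : ℤ) * (m : ℤ) + 0 = ((m : ℕ) : ℤ) := by ring
      rw [ln_eval, e, Int.natCast_dvd_natCast]
    have e2 : (p : ℤ) ∣ (quad 1 1 1).eval (m : ℤ) ↔ p ∣ m ^ 2 + m + 1 := by
      have e : (1 : ℤ) * (m : ℤ) ^ 2 + 1 * m + 1 = ((m ^ 2 + m + 1 : ℕ) : ℤ) := by
        push_cast
        ring
      rw [quad_eval, e, Int.natCast_dvd_natCast]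
    unfold f111
    rw [Q_two, e1, e2]) _

open Classical in
/-- **The density in all windows around almost all integers.** -/
theorem result (θ : ℝ) (hθ : 0 < θ) (ε : ℝ) (hε : 0 < ε) :
    ∃ (K : ℝ) (r0 : ℕ), 0 < K ∧ ∀ r : ℕ, r0 ≤ r → ∀ᶠ X : ℕ in atTop, ∀ Y : ℕ, (X : ℝ) ^ θ ≤ Y → Y ≤ X →
      (((Finset.Ioc X (X + Y)).filter (fun n => ¬ AllWindows r K ε X Y n)).card : ℝ) ≤ ε * Y := by
  obtain ⟨K, r0, hK, h⟩ := pack_exact f111 Good V f111_sys f111_noTr good_iff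
    V_eq θ hθ ε hε
  refine ⟨K, r0, hK, fun r hr => ?_⟩
  filter_upwards [h r hr] with X hX Y h1 h2
  exact (hX Y h1 h2).1

end Pool.Agent.Results.MP_82233c_nt.ExactWindows
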