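import Pool.Agent.TH977.PW.Inst

set_option autoImplicit false

/-!
# Values of `p ^ 2 + p + 1` at primes

Let `R r` be the set of the `p` for which all prime factors of `p` and of `p ^ 2 + p + 1` are larger
than `p ^ (1 / r)`; it contains all primes `p` with `p ^ 2 + p + 1` prime. The interval `(X, 2X]`
contains at least `κ X / log ^ 2 X` PRIMES `p` in `R r` for which `p ^ 2 + p + 1` has at most `r`
prime factors. Let `A` be an ARBITRARY subset of `R r` (the set of these primes, or the set of the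
primes `p` with `p ^ 2 + p + 1` prime). In every short interval `(X, X + Y]`, `X ^ θ ≤ Y ≤ X / 2`, all
but `ε Y / log ^ 2 X` of the elements of `A` are regular points of `A`.
-/

namespace Pool.Agent.Results.MP_82233c_nt.PrimeArguments

open Finset Filter
open Pool.Agent.TH977.PW (N Irregular)

/-- All prime factors of `p` and of `p ^ 2 + p + 1` are larger than `p ^ (1 / r)`. -/
def R (r : ℕ) : Set ℕ :=
  {p | ∀ q : ℕ, q.Prime → q ∣ p * (p ^ 2 + p + 1) → (p : ℝ) ^ (1 / (r : ℝ)) < (q : ℝ)}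

lemma cast_eq (p : ℕ) : (1 : ℤ) * (p : ℤ) ^ 2 + 1 * p + 1 = ((p ^ 2 + p + 1 : ℕ) : ℤ) := by
  push_cast
  ring

/-- **Regular neighbours, `p ^ 2 + p + 1` at primes.** -/
theorem result (θ : ℝ) (hθ : 0 < θ) (hθ1 : θ ≤ 1) :
    ∃ r₀ : ℕ, 2 ≤ r₀ ∧ ∀ r : ℕ, r₀ ≤ r →
      (∀ p : ℕ, (p).Prime → (p ^ 2 + p + 1).Prime → p ∈ R r) ∧
      (∃ κ : ℝ, 0 < κ ∧ ∀ᶠ X : ℕ in atTop, κ * X / Real.log X ^ 2 ≤
        N {p | (p).Prime ∧ p ∈ R r ∧ (p ^ 2 + p + 1).primeFactorsList.length ≤ r} X (2 * X)) ∧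
      ∀ ε : ℝ, 0 < ε → ∃ c : ℝ, 0 < c ∧ ∀ δ : ℝ, 0 < δ → ∃ B : ℕ,
        ∀ᶠ X : ℕ in atTop, ∀ Y : ℕ, (X : ℝ) ^ θ ≤ Y → 2 * Y ≤ X → ∀ A : Set ℕ, A ⊆ R r →
          (N (Irregular A 2 c δ B X Y) X (X + Y) : ℝ) ≤ ε * Y / Real.log X ^ 2 := by
  obtain ⟨r0, hr0, h⟩ := Pool.Agent.TH977.PW.final_quad_prime 1 1 1 (by norm_num)
    (fun p hp h => by
      have h1 : p ∣ 1 := by exact_mod_cast h.2.2
      exact hp.one_lt.ne' (Nat.dvd_one.1 h1))
    (fun h => by
      obtain ⟨x, hx⟩ := h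
      nlinarith [mul_self_nonneg x])
    (fun p hp => by
      by_cases h5 : p = 3
      · refine ⟨2, ?_, ?_⟩
        · subst h5; norm_num
        · subst h5; norm_num
      · refine ⟨1, ?_, ?_⟩
        · intro h1
          exact hp.one_lt.ne' (Nat.dvd_one.1 h1)
        · intro h1
          rw [cast_eq, Int.natCast_dvd_natCast] at h1
          exact h5 ((Nat.prime_dvd_prime_iff_eq hp (by norm_num)).1 h1))
    (fun r => R r)
    (fun r => {p | (p).Prime ∧ p ∈ R r ∧ (p ^ 2 + p + 1).primeFactorsList.length ≤ r})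
    (fun r m _ hm => ⟨fun p hp hd => hm p hp (hd.mul_right _), fun p hp hd => hm p hp (by
      rw [cast_eq, Int.natCast_dvd_natCast] at hd
      exact hd.mul_left _)⟩)
    (fun r m hr hm h1 h2 => by
      refine ⟨hm, ?_, ?_⟩
      · intro q hq hd
        rcases (Nat.Prime.dvd_mul hq).1 hd with h3 | h3
        · exact Pool.Agent.TH977.PW.rpow_lt_dvd r m q hr hm hq h3
        · refine h1 q hq ?_
          rw [cast_eq, Int.natCast_dvd_natCast]
          exact h3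
      · rw [cast_eq, Int.natAbs_natCast] at h2
        exact h2) θ hθ hθ1
  refine ⟨r0, hr0, fun r hr => ⟨?_, (h r hr).1, (h r hr).2⟩⟩
  intro p hp hp2 q hq hd
  rcases (Nat.Prime.dvd_mul hq).1 hd with h3 | h3
  · exact Pool.Agent.TH977.PW.rpow_lt_dvd r p q (hr0.trans hr) hp hq h3
  · rw [(Nat.prime_dvd_prime_iff_eq hq hp2).1 h3]
    exact Pool.Agent.TH977.PW.rpow_lt_of_le r p _ (hr0.trans hr) hp.two_le (by nlinarith [hp.two_le])

end Pool.Agent.Results.MP_82233c_nt.PrimeArguments
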